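import Pool.Agent.H95.RQ.Targets1

/-!
Board rq_modules, module PRJ: the projection formula.
-/

set_option autoImplicit false

namespace Pool.Agent.H34.RQ

open Pool.Agent.H95.RQ Pool.Agent.H28.RC

lemma trace_conj_eq {G : Type} [Group G] {V : Type} [AddCommGroup V] [Module ℂ V]
    (ρ : Representation ℂ G V) (x g : G) :
    LinearMap.trace ℂ V (ρ (x⁻¹ * g * x)) = LinearMap.trace ℂ V (ρ g) := by
  rw [map_mul, LinearMap.trace_mul_comm, ← map_mul]
  congr 2
  group

lemma smul_eq_iff {G : Type} [Group G] (H : Subgroup G) (g : G) (x : G ⧸ H) :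
    g • x = x ↔ x.out⁻¹ * g * x.out ∈ H := by
  have h1 : g • x = x ↔ ((g * x.out : G) : G ⧸ H) = ((x.out : G) : G ⧸ H) := by
    have h2 : ((x.out : G) : G ⧸ H) = x := Quotient.out_eq' x
    have h3 : ((g * x.out : G) : G ⧸ H) = g • x := by
      conv_rhs => rw [← h2]
      rfl
    rw [h2, h3]
  rw [h1, eq_comm, QuotientGroup.eq, mul_assoc]

theorem pf_PRJ : T_PRJ := by
  classical
  intro G _ _ H V _ _ _ ρ g
  have : Fintype (G ⧸ H) := Fintype.ofFinite _
  unfold indf pcz
  rw [finsum_eq_sum_of_fintype]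
  have h1 : ∀ x : G ⧸ H, (if h : x.out⁻¹ * g * x.out ∈ H then
      (fun h : H => LinearMap.trace ℂ V (ρ (h : G))) ⟨_, h⟩ else 0) =
      if g • x = x then LinearMap.trace ℂ V (ρ g) else 0 := by
    intro x
    by_cases h : x.out⁻¹ * g * x.out ∈ H
    · rw [dif_pos h, if_pos ((smul_eq_iff H g x).2 h)]
      exact trace_conj_eq ρ x.out g
    · rw [dif_neg h, if_neg (fun h' => h ((smul_eq_iff H g x).1 h'))]
  rw [Finset.sum_congr rfl fun x _ => h1 x, ← Finset.sum_filter, Finset.sum_const,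
    nsmul_eq_mul, mul_comm, Nat.card_eq_fintype_card, Fintype.card_subtype]
  push_cast
  rfl

end Pool.Agent.H34.RQ
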