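import Pool.Agent.H29.RQ.Targets

/-!
# MP_c65535_nt, module VAB: the group `V` is commutative
-/

set_option autoImplicit false

namespace Pool.Agent.H34.RQ

open Pool.Agent.H24.RD Pool.Agent.H29.RQ

theorem pf_VAB : T_VAB := by
  intro F M _ _ _ _ p hp r γ hγ n m n1 N' K' h1m hmn hn2 hpN hKN hgen s hs t ht
  have hN0 : 0 < N' := Nat.pos_of_ne_zero (fun h => hpN (h ▸ dvd_zero p))
  have hK0 : 0 < K' := Nat.pos_of_dvd_of_pos hKN hN0
  have hpK : ¬ p ∣ K' := fun h => hpN (h.trans hKN)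
  have hpos : ∀ k, 0 < p ^ k := fun k => pow_pos hp.pos k
  have hγM : ∀ i, algebraMap F M (γ i) ≠ 0 := fun i => by
    rw [Ne, FaithfulSMul.algebraMap_eq_zero_iff]
    exact hγ i
  have key : ∀ z : M, (z ^ (p ^ n * N') = 1 ∨ ∃ i, z ^ (p ^ m * K') = algebraMap F M (γ i)) →
      ∀ u ∈ VV F M γ p n1 K', ∃ e : M, u z = e * z ∧ e ^ (p ^ n1) = 1 := by
    rintro z (hz1 | ⟨i, hz1⟩) u hu
    · have hz0 : z ≠ 0 := by
        rintro rfl
        rw [zero_pow (Nat.mul_pos (hpos n) hN0).ne'] at hz1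
        exact zero_ne_one hz1
      have hcop : IsCoprime ((p ^ n : ℕ) : ℤ) (N' : ℤ) :=
        Nat.isCoprime_iff_coprime.2 (Nat.Coprime.pow_left n ((Nat.Prime.coprime_iff_not_dvd hp).2 hpN))
      obtain ⟨a, b, hab⟩ := hcop
      have e : z = (z ^ (p ^ n)) ^ a * (z ^ N') ^ b := by
        rw [← zpow_natCast, ← zpow_natCast, ← zpow_mul, ← zpow_mul, ← zpow_add₀ hz0]
        rw [mul_comm _ a, mul_comm _ b, hab, zpow_one]
      have f1 : u (z ^ (p ^ n)) = z ^ (p ^ n) := hu _ (Or.inl ⟨N', hpN, by rw [← pow_mul]; exact hz1⟩)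
      set w := z ^ N' with hw
      have hw0 : w ≠ 0 := pow_ne_zero _ hz0
      have hw1 : w ^ (p ^ n) = 1 := by rw [hw, ← pow_mul, mul_comm]; exact hz1
      have f2 : u (w ^ p ^ (n - n1)) = w ^ p ^ (n - n1) := by
        refine hu _ (Or.inr (Or.inl ?_))
        rw [← pow_mul, ← pow_add, Nat.sub_add_cancel (h1m.trans hmn)]
        exact hw1
      have f3 : (u w / w) ^ p ^ (n - n1) = 1 := by
        rw [div_pow, ← map_pow, f2, div_self (pow_ne_zero _ hw0)]
      have f4 : (u w / w) ^ p ^ n1 = 1 := by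
        have h3 : n1 = (n - n1) + (n1 - (n - n1)) := by omega
        rw [h3, pow_add, pow_mul, f3, one_pow]
      refine ⟨(u w / w) ^ b, ?_, ?_⟩
      · have h5 : u z = (z ^ (p ^ n)) ^ a * (u w) ^ b := by
          conv_lhs => rw [e]
          rw [map_mul, map_zpow₀, map_zpow₀, f1]
        rw [h5]
        have h6 : (u w) ^ b = (u w / w) ^ b * w ^ b := by
          rw [← mul_zpow, div_mul_cancel₀ _ hw0]
        rw [h6]
        conv_rhs => rw [e]
        ring
      · rw [← zpow_natCast, ← zpow_mul, mul_comm, zpow_mul, zpow_natCast, f4, one_zpow]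
    · have hz0 : z ≠ 0 := by
        rintro rfl
        rw [zero_pow (Nat.mul_pos (hpos m) hK0).ne'] at hz1
        exact hγM i hz1.symm
      refine ⟨u z / z, (div_mul_cancel₀ _ hz0).symm, ?_⟩
      have f1 : u (z ^ (p ^ (m - n1) * K')) = z ^ (p ^ (m - n1) * K') := by
        refine hu _ (Or.inr (Or.inr (Or.inl ⟨i, ?_⟩)))
        rw [← pow_mul, ← hz1]
        congr 1
        have h3 : m = (m - n1) + n1 := by omega
        conv_rhs => rw [h3, pow_add]
        ring
      have f2 : u (z ^ (p ^ m)) = z ^ (p ^ m) :=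
        hu _ (Or.inr (Or.inr (Or.inr ⟨i, by rw [← pow_mul]; exact hz1⟩)))
      have g1 : (u z / z) ^ (p ^ (m - n1) * K') = 1 := by
        rw [div_pow, ← map_pow, f1, div_self (pow_ne_zero _ hz0)]
      have g2 : (u z / z) ^ (p ^ m) = 1 := by
        rw [div_pow, ← map_pow, f2, div_self (pow_ne_zero _ hz0)]
      have g3 : Nat.gcd (p ^ (m - n1) * K') (p ^ m) = p ^ (m - n1) := by
        have h3 : p ^ m = p ^ (m - n1) * p ^ n1 := by
          rw [← pow_add]
          congr 1
          omega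
        rw [h3, Nat.gcd_mul_left]
        have h4 : Nat.gcd K' (p ^ n1) = 1 :=
          (Nat.Coprime.pow_left n1 ((Nat.Prime.coprime_iff_not_dvd hp).2 hpK)).symm
        rw [h4, mul_one]
      have g4 := pow_gcd_eq_one.mpr ⟨g1, g2⟩
      rw [g3] at g4
      have h3 : n1 = (m - n1) + (n1 - (m - n1)) := by omega
      rw [h3, pow_add, pow_mul, g4, one_pow]
  have hcomm : ∀ z : M, (z ^ (p ^ n * N') = 1 ∨ ∃ i, z ^ (p ^ m * K') = algebraMap F M (γ i)) →
      (s * t) z = (t * s) z := by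
    intro z hz
    obtain ⟨e, he, he1⟩ := key z hz s hs
    obtain ⟨e', he', he1'⟩ := key z hz t ht
    have h1 : s e' = e' := hs _ (Or.inr (Or.inl he1'))
    have h2 : t e = e := ht _ (Or.inr (Or.inl he1))
    rw [AlgEquiv.mul_apply, AlgEquiv.mul_apply, he, he', map_mul, map_mul, h1, h2, he, he']
    ring
  ext x
  have hx : x ∈ IntermediateField.adjoin F {z : M | z ^ (p ^ n * N') = 1 ∨
      ∃ i, z ^ (p ^ m * K') = algebraMap F M (γ i)} := by
    rw [hgen]; exact IntermediateField.mem_top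
  refine IntermediateField.adjoin_induction F (p := fun x _ => (s * t) x = (t * s) x) ?_ ?_ ?_ ?_ ?_ hx
  · exact fun z hz => hcomm z hz
  · intro c
    rw [AlgEquiv.commutes, AlgEquiv.commutes]
  · intro u v _ _ hu hv
    rw [map_add, map_add, hu, hv]
  · intro u _ hu
    rw [map_inv₀, map_inv₀, hu]
  · intro u v _ _ hu hv
    rw [map_mul, map_mul, hu, hv]

end Pool.Agent.H34.RQ
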