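import Pool.Agent.H29.RQ.Targets

/-!
# MP_c65535_nt, module VDM: the Vandermonde determinant of complex numbers
-/

set_option autoImplicit false

namespace Pool.Agent.H34.RQ

open Finset Pool.Agent.H29.RQ

/-- the product over the ordered pairs is the square of the product over the pairs `i < j` -/
theorem prod_pairs_vdm (N : ℕ) (x : Fin N → ℂ) :
    ∏ i : Fin N, ∏ j ∈ Finset.univ.erase i, ‖x i - x j‖ =
      (∏ i : Fin N, ∏ j ∈ Finset.Ioi i, ‖x j - x i‖) ^ 2 := by
  have h1 : ∀ i : Fin N, ∏ j ∈ Finset.univ.erase i, ‖x i - x j‖ =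
      (∏ j ∈ Finset.Ioi i, ‖x i - x j‖) * ∏ j ∈ Finset.Iio i, ‖x i - x j‖ := by
    intro i
    rw [← Finset.prod_union]
    · congr 1
      ext j
      simp only [Finset.mem_erase, Finset.mem_univ, and_true, Finset.mem_union, Finset.mem_Ioi, Finset.mem_Iio]
      constructor
      · intro h
        exact (lt_or_gt_of_ne h).symm
      · rintro (h | h)
        · exact h.ne'
        · exact h.ne
    · rw [Finset.disjoint_left]
      intro j h2 h3
      rw [Finset.mem_Ioi] at h2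
      rw [Finset.mem_Iio] at h3
      exact absurd h3 (not_lt.mpr h2.le)
  rw [Finset.prod_congr rfl fun i _ => h1 i, Finset.prod_mul_distrib, sq]
  congr 1
  · exact Finset.prod_congr rfl fun i _ => Finset.prod_congr rfl fun j _ => norm_sub_rev _ _
  · rw [Finset.prod_sigma', Finset.prod_sigma']
    refine Finset.prod_nbij' (fun q => ⟨q.2, q.1⟩) (fun q => ⟨q.2, q.1⟩) ?_ ?_ ?_ ?_ ?_
    · rintro ⟨i, j⟩ h
      simp only [Finset.mem_sigma, Finset.mem_univ, Finset.mem_Iio, Finset.mem_Ioi, true_and] at h ⊢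
      exact h
    · rintro ⟨i, j⟩ h
      simp only [Finset.mem_sigma, Finset.mem_univ, Finset.mem_Iio, Finset.mem_Ioi, true_and] at h ⊢
      exact h
    · rintro ⟨i, j⟩ _
      rfl
    · rintro ⟨i, j⟩ _
      rfl
    · rintro ⟨i, j⟩ _
      rfl

theorem vdm_fin (N : ℕ) (x : Fin N → ℂ) :
    ∏ i : Fin N, ∏ j ∈ Finset.Ioi i, ‖x j - x i‖ ≤ (N : ℝ) ^ N * ∏ i, (max ‖x i‖ 1) ^ (N - 1) := by
  set c : Fin N → ℝ := fun i => (max ‖x i‖ 1) ^ (N - 1) with hc
  have hc0 : ∀ i, 0 < c i := fun i => pow_pos (lt_of_lt_of_le one_pos (le_max_right _ _)) _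
  set A : Matrix (Fin N) (Fin N) ℂ := fun i k => ((c i)⁻¹ : ℂ) * x i ^ (k : ℕ) with hA
  have hdet : A.det = (∏ i, ((c i)⁻¹ : ℂ)) * (Matrix.vandermonde x).det := by
    have := Matrix.det_mul_column (fun i => ((c i)⁻¹ : ℂ)) (Matrix.vandermonde x)
    rw [← this]
    rfl
  have hent : ∀ i k, ‖A i k‖ ≤ 1 := by
    intro i k
    rw [hA]
    simp only
    rw [norm_mul, norm_inv, Complex.norm_real, Real.norm_eq_abs, abs_of_pos (hc0 i), norm_pow]
    rw [inv_mul_le_iff₀ (hc0 i), mul_one, hc]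
    simp only
    have h1 : ‖x i‖ ^ (k : ℕ) ≤ (max ‖x i‖ 1) ^ (k : ℕ) := pow_le_pow_left₀ (norm_nonneg _) (le_max_left _ _) _
    refine h1.trans (pow_le_pow_right₀ (le_max_right _ _) ?_)
    have := k.2
    omega
  have h1 : ‖A.det‖ ≤ (N : ℝ) ^ N := by
    rw [Matrix.det_apply]
    refine (norm_sum_le _ _).trans ?_
    have h2 : ∀ σ ∈ (Finset.univ : Finset (Equiv.Perm (Fin N))), ‖Equiv.Perm.sign σ • ∏ i, A (σ i) i‖ ≤ 1 := by
      intro σ _
      have h3 : ‖∏ i, A (σ i) i‖ ≤ 1 := by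
        rw [norm_prod]
        exact Finset.prod_le_one (fun i _ => norm_nonneg _) fun i _ => hent _ _
      rcases Int.units_eq_one_or (Equiv.Perm.sign σ) with h | h
      · rw [h, one_smul]
        exact h3
      · rw [h, Units.neg_smul, one_smul, norm_neg]
        exact h3
    refine (Finset.sum_le_sum h2).trans ?_
    rw [Finset.sum_const, Finset.card_univ, Fintype.card_perm, Fintype.card_fin, nsmul_eq_mul, mul_one]
    exact_mod_cast Nat.factorial_le_pow N
  have h2 : ‖A.det‖ = (∏ i, (c i)⁻¹) * ∏ i : Fin N, ∏ j ∈ Finset.Ioi i, ‖x j - x i‖ := by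
    rw [hdet, Matrix.det_vandermonde, norm_mul, norm_prod, norm_prod]
    congr 1
    · refine Finset.prod_congr rfl fun i _ => ?_
      rw [norm_inv, Complex.norm_real, Real.norm_eq_abs, abs_of_pos (hc0 i)]
    · exact Finset.prod_congr rfl fun i _ => norm_prod _ _
  rw [h2, Finset.prod_inv_distrib, inv_mul_le_iff₀ (Finset.prod_pos fun i _ => hc0 i)] at h1
  rw [mul_comm]
  exact h1

theorem pf_VDM : T_VDM := by
  classical
  intro X
  set N := X.card with hN
  let e : Fin N ≃ X := (X.equivFin).symm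
  set x : Fin N → ℂ := fun i => (e i : ℂ) with hx
  have hinj : Function.Injective x := fun i j h => e.injective (Subtype.ext h)
  have himg : Finset.univ.image x = X := by
    ext y
    simp only [Finset.mem_image, Finset.mem_univ, true_and]
    constructor
    · rintro ⟨i, rfl⟩
      exact (e i).2
    · intro hy
      exact ⟨e.symm ⟨y, hy⟩, by rw [hx]; simp⟩
  have h1 : ∏ y ∈ X, ∏ z ∈ X.erase y, ‖y - z‖ = ∏ i : Fin N, ∏ j ∈ Finset.univ.erase i, ‖x i - x j‖ := by
    conv_lhs => rw [← himg]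
    rw [Finset.prod_image fun i _ j _ h => hinj h]
    refine Finset.prod_congr rfl fun i _ => ?_
    have h2 : (Finset.univ.image x).erase (x i) = (Finset.univ.erase i).image x :=
      (Finset.image_erase hinj _ _).symm
    rw [h2, Finset.prod_image fun i _ j _ h => hinj h]
  have h2 : ∏ y ∈ X, (max ‖y‖ 1) ^ (2 * (N - 1)) = (∏ i : Fin N, (max ‖x i‖ 1) ^ (N - 1)) ^ 2 := by
    conv_lhs => rw [← himg]
    rw [Finset.prod_image fun i _ j _ h => hinj h, ← Finset.prod_pow]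
    refine Finset.prod_congr rfl fun i _ => ?_
    rw [← pow_mul, mul_comm]
  rw [h1, prod_pairs_vdm, h2]
  have h3 := vdm_fin N x
  have h4 : 0 ≤ ∏ i : Fin N, ∏ j ∈ Finset.Ioi i, ‖x j - x i‖ :=
    Finset.prod_nonneg fun i _ => Finset.prod_nonneg fun j _ => norm_nonneg _
  calc (∏ i : Fin N, ∏ j ∈ Finset.Ioi i, ‖x j - x i‖) ^ 2 ≤
      ((N : ℝ) ^ N * ∏ i, (max ‖x i‖ 1) ^ (N - 1)) ^ 2 := pow_le_pow_left₀ h4 h3 2
    _ = (N : ℝ) ^ (2 * N) * (∏ i : Fin N, (max ‖x i‖ 1) ^ (N - 1)) ^ 2 := by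
      rw [mul_pow, ← pow_mul, mul_comm N 2]

end Pool.Agent.H34.RQ
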